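import Mathlib
import Pool.Agent.R110.BalDefs

/-!
# Balance is not an invariant of equivalence classes of Butson matrices

There are two equivalent normalised Butson matrices `BH(4, 16)` of which one is row balanced and
column balanced while the other is neither row balanced nor column balanced.
-/

namespace Pool.Agent.Results.MP_812af1_co.BalanceNotInvariant

open Pool.Agent.R110

/-- `H` is a Butson matrix `BH(m, n)`: all entries are complex `m`-th roots of unity and `H` times its
conjugate transpose is `n I`. -/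
def IsButson (m n : ℕ) (H : Matrix (Fin n) (Fin n) ℂ) : Prop :=
  (∀ i j, H i j ^ m = 1) ∧ H * H.conjTranspose = (n : ℂ) • (1 : Matrix (Fin n) (Fin n) ℂ)

/-- `K` arises from `H` by permuting rows and columns and by multiplying rows and columns by
`m`-th roots of unity. -/
def Equivalent (m n : ℕ) (H K : Matrix (Fin n) (Fin n) ℂ) : Prop :=
  ∃ (σ τ : Equiv.Perm (Fin n)) (r c : Fin n → ℂ), (∀ i, r i ^ m = 1) ∧ (∀ j, c j ^ m = 1) ∧
    ∀ i j, K i j = r i * c j * H (σ i) (τ j)

/-- Every entry of the first row and of the first column equals `1`. -/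
def Normalised (n : ℕ) (H : Matrix (Fin n) (Fin n) ℂ) : Prop :=
  ∀ i j : Fin n, ((i : ℕ) = 0 ∨ (j : ℕ) = 0) → H i j = 1

/-- Every `m`-th root of unity occurs the same number of times (namely `n / m` times) in every row
other than the first. -/
def RowBalanced (m n : ℕ) (H : Matrix (Fin n) (Fin n) ℂ) : Prop :=
  ∀ i : Fin n, (i : ℕ) ≠ 0 → ∀ z : ℂ, z ^ m = 1 → Nat.card {j : Fin n // H i j = z} = n / m

/-- Every `m`-th root of unity occurs the same number of times (namely `n / m` times) in every column
other than the first. -/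
def ColBalanced (m n : ℕ) (H : Matrix (Fin n) (Fin n) ℂ) : Prop :=
  ∀ j : Fin n, (j : ℕ) ≠ 0 → ∀ z : ℂ, z ^ m = 1 → Nat.card {i : Fin n // H i j = z} = n / m

theorem card_eq {p : Fin 16 → Prop} {q : Fin 16 → Prop} [DecidablePred q] (h : ∀ j, p j ↔ q j) :
    Nat.card {j // p j} = (Finset.univ.filter q).card := by
  have : p = q := by
    funext j
    exact propext (h j)
  subst this
  rw [Nat.card_eq_fintype_card, Fintype.card_subtype]

/-- the row permutation: exchange the rows number 0 and 2 -/
def s : Equiv.Perm (Fin 16) := Equiv.swap 0 2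
/-- the column permutation: exchange the columns number 0 and 1 -/
def t : Equiv.Perm (Fin 16) := Equiv.swap 0 1

/-- exponents of the second matrix -/
def F (i j : Fin 16) : ℕ := (3 * E (s i) 1 + E 2 1) + 3 * E 2 (t j) + E (s i) (t j)

/-- the second matrix -/
noncomputable def N : Matrix (Fin 16) (Fin 16) ℂ := fun i j => Complex.I ^ F i j

theorem F_zero : ∀ i : Fin 16, F 0 i % 4 = 0 ∧ F i 0 % 4 = 0 := by decide +kernel

/-- a row which is not balanced -/
theorem F_row : ∃ i : Fin 16, (i : ℕ) ≠ 0 ∧
    (Finset.univ.filter (fun j : Fin 16 => F i j % 4 = 0)).card ≠ 4 := by decide +kernel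

/-- a column which is not balanced -/
theorem F_col : ∃ j : Fin 16, (j : ℕ) ≠ 0 ∧
    (Finset.univ.filter (fun i : Fin 16 => F i j % 4 = 0)).card ≠ 4 := by decide +kernel

theorem I_pow_eq_one (n : ℕ) : Complex.I ^ n = 1 ↔ n % 4 = 0 := by
  have h : Complex.I ^ n = Complex.I ^ (n % 4) := by
    conv_lhs => rw [← Nat.div_add_mod n 4, pow_add, pow_mul, Complex.I_pow_four, one_pow, one_mul]
  rw [h]
  constructor
  · intro h1
    exact I_pow_inj (b := 0) (Nat.mod_lt _ (by norm_num)) (by norm_num) (by rw [h1, pow_zero])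
  · intro h1
    rw [h1, pow_zero]

theorem root_pow (a : ℕ) : (Complex.I ^ a) ^ 4 = 1 := by
  rw [← pow_mul, mul_comm, pow_mul, Complex.I_pow_four, one_pow]

/-- Two equivalent normalised `BH(4, 16)`: `H` is row balanced and column balanced, `K` is neither. -/
theorem result : ∃ H K : Matrix (Fin 16) (Fin 16) ℂ,
    IsButson 4 16 H ∧ IsButson 4 16 K ∧ Equivalent 4 16 H K ∧ Normalised 16 H ∧ Normalised 16 K ∧
      (RowBalanced 4 16 H ∧ ColBalanced 4 16 H) ∧ ¬ RowBalanced 4 16 K ∧ ¬ ColBalanced 4 16 K := by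
  have hK : ∀ i j, N i j =
      Complex.I ^ (3 * E (s i) 1 + E 2 1) * Complex.I ^ (3 * E 2 (t j)) * M (s i) (t j) := by
    intro i j
    show Complex.I ^ F i j = _ * _ * Complex.I ^ E (s i) (t j)
    rw [← pow_add, ← pow_add]
    rfl
  refine ⟨M, N, ⟨M_root, by simpa using M_gram⟩, ⟨?_, ?_⟩, ?_, ?_, ?_,
    ⟨?_, ?_⟩, ?_, ?_⟩
  · intro i j
    exact root_pow _
  · have hG : ∀ i k, (M * M.conjTranspose) i k = ((16 : ℂ) • (1 : Matrix (Fin 16) (Fin 16) ℂ)) i k :=
      fun i k => by rw [M_gram]
    ext i k
    rw [Matrix.mul_apply]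
    have h1 : ∀ j, N i j * N.conjTranspose j k =
        (Complex.I ^ (3 * E (s i) 1 + E 2 1) * star (Complex.I ^ (3 * E (s k) 1 + E 2 1))) *
          (M (s i) (t j) * M.conjTranspose (t j) (s k)) := by
      intro j
      rw [Matrix.conjTranspose_apply, hK i j, hK k j, Matrix.conjTranspose_apply]
      simp only [star_mul']
      have h2 : Complex.I ^ (3 * E 2 (t j)) * star (Complex.I ^ (3 * E 2 (t j))) = 1 := by
        rw [conj_I_pow, ← pow_add, I_pow_eq_one]
        omega
      linear_combination (Complex.I ^ (3 * E (s i) 1 + E 2 1) *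
        star (Complex.I ^ (3 * E (s k) 1 + E 2 1)) * (M (s i) (t j) * star (M (s k) (t j)))) * h2
    rw [Finset.sum_congr rfl (fun j _ => h1 j), ← Finset.mul_sum,
      Equiv.sum_comp t (fun j => M (s i) j * M.conjTranspose j (s k)), ← Matrix.mul_apply, hG]
    by_cases hik : i = k
    · subst hik
      have h2 : Complex.I ^ (3 * E (s i) 1 + E 2 1) * star (Complex.I ^ (3 * E (s i) 1 + E 2 1)) = 1 := by
        rw [conj_I_pow, ← pow_add, I_pow_eq_one]
        omega
      rw [h2]
      simp
    · have : s i ≠ s k := fun h => hik (s.injective h)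
      simp [hik, this]
  · exact ⟨s, t, fun i => Complex.I ^ (3 * E (s i) 1 + E 2 1), fun j => Complex.I ^ (3 * E 2 (t j)),
      fun i => root_pow _, fun j => root_pow _, hK⟩
  · rintro i j (h | h)
    · have : i = 0 := Fin.ext h
      subst this
      show Complex.I ^ E 0 j = 1
      rw [(E_zero j).1, pow_zero]
    · have : j = 0 := Fin.ext h
      subst this
      show Complex.I ^ E i 0 = 1
      rw [(E_zero i).2, pow_zero]
  · rintro i j (h | h)
    · have : i = 0 := Fin.ext h
      subst this
      exact (I_pow_eq_one _).2 (F_zero j).1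
    · have : j = 0 := Fin.ext h
      subst this
      exact (I_pow_eq_one _).2 (F_zero i).2
  · intro i hi z hz
    obtain ⟨a, ha, rfl⟩ := exists_pow hz
    have hi' : i ≠ 0 := fun h => hi (by rw [h]; rfl)
    have := row_count i hi' ⟨a, ha⟩
    rw [card_eq (q := fun j => E i j = a)]
    · exact this
    · intro j
      exact ⟨fun h => I_pow_inj (E_lt i j) ha h, fun h => by show Complex.I ^ E i j = _; rw [h]⟩
  · intro j hj z hz
    obtain ⟨a, ha, rfl⟩ := exists_pow hz
    have hj' : j ≠ 0 := fun h => hj (by rw [h]; rfl)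
    have := col_count j hj' ⟨a, ha⟩
    rw [card_eq (q := fun i => E i j = a)]
    · exact this
    · intro i
      exact ⟨fun h => I_pow_inj (E_lt i j) ha h, fun h => by show Complex.I ^ E i j = _; rw [h]⟩
  · intro h
    obtain ⟨i, hi, hc⟩ := F_row
    have h1 := h i hi 1 (one_pow _)
    rw [card_eq (q := fun j => F i j % 4 = 0)] at h1
    · exact hc h1
    · intro j
      exact I_pow_eq_one _
  · intro h
    obtain ⟨j, hj, hc⟩ := F_col
    have h1 := h j hj 1 (one_pow _)
    rw [card_eq (q := fun i => F i j % 4 = 0)] at h1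
    · exact hc h1
    · intro i
      exact I_pow_eq_one _

end Pool.Agent.Results.MP_812af1_co.BalanceNotInvariant
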